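import Pool.Agent.K3h84.GD.Stm

/-!
# The Euler product and the discriminant
-/

set_option autoImplicit false

namespace Pool.Agent.K3h77.GD

open UpperHalfPlane ModularForm Filter Topology
open Pool.Agent.K3h84.GD

/-- `∏ (1 - y ^ (n + 1))` -/
noncomputable def Φ (y : ℂ) : ℂ := ∏' n : ℕ, (1 - y ^ (n + 1))

lemma Φ_zero : Φ 0 = 1 := by simp [Φ]

lemma Φ_diff {y : ℂ} (hy : ‖y‖ < 1) : DifferentiableAt ℂ Φ y :=
  differentiableOn_tprod_one_sub_pow.differentiableAt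
    (Metric.isOpen_ball.mem_nhds (by simpa using hy))

lemma hasDeriv_prod (N : ℕ) :
    HasDerivAt (fun y : ℂ => ∏ i ∈ Finset.range (N + 1), (1 - y ^ (i + 1))) (-1) 0 := by
  induction N with
  | zero =>
    simp only [zero_add, Finset.range_one, Finset.prod_singleton, pow_one]
    exact ((hasDerivAt_id (0 : ℂ)).const_sub 1)
  | succ N ih =>
    have h1 : HasDerivAt (fun y : ℂ => 1 - y ^ (N + 1 + 1)) 0 0 := by
      have := ((hasDerivAt_pow (N + 1 + 1) (0 : ℂ)).const_sub 1)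
      simpa using this
    have h2 := ih.mul h1
    have h3 : (fun y : ℂ => ∏ i ∈ Finset.range (N + 1 + 1), (1 - y ^ (i + 1))) =
        (fun y : ℂ => ∏ i ∈ Finset.range (N + 1), (1 - y ^ (i + 1))) *
          (fun y : ℂ => 1 - y ^ (N + 1 + 1)) := by
      ext y
      rw [Finset.prod_range_succ]
      rfl
    rw [h3]
    simpa using h2

lemma Φ_deriv : HasDerivAt Φ (-1) 0 := by
  have h0 : (0 : ℂ) ∈ Metric.ball (0 : ℂ) 1 := Metric.mem_ball_self one_pos
  have h1 := multipliableLocallyUniformlyOn_one_sub_pow.hasProdLocallyUniformlyOn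
  have h2 := TendstoLocallyUniformlyOn.deriv h1
    (.of_forall fun _ ↦ by
      simpa [Finset.prod_fn] using DifferentiableOn.finsetProd (fun _ _ ↦ by fun_prop))
    Metric.isOpen_ball
  have h3 := (h2.tendsto_at h0).comp tendsto_finset_range
  have h4 : Tendsto (fun n : ℕ => (-1 : ℂ)) atTop (𝓝 (deriv Φ 0)) := by
    refine h3.congr' ?_
    filter_upwards [eventually_ge_atTop 1] with n hn
    obtain ⟨m, rfl⟩ := Nat.exists_eq_add_of_le hn
    have := (hasDeriv_prod m).deriv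
    rw [add_comm]
    simp only [Function.comp]
    rw [← this]
  have h5 : deriv Φ 0 = -1 := tendsto_nhds_unique h4 tendsto_const_nhds
  have h6 := (Φ_diff (y := 0) (by simp)).hasDerivAt
  rwa [h5] at h6

/-- the odd part of the product -/
noncomputable def O (y : ℂ) : ℂ := ∏' n : ℕ, (1 - y ^ (2 * n + 1))

lemma mul_odd {y : ℂ} (hy : ‖y‖ < 1) : Multipliable fun n : ℕ ↦ 1 - y ^ (2 * n + 1) := by
  have h := multipliable_one_add_of_summable (f := fun n : ℕ ↦ -y ^ (2 * n + 1)) (by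
    have h1 : Summable fun n : ℕ => ‖y‖ ^ n := summable_geometric_of_lt_one (norm_nonneg _) hy
    refine Summable.of_nonneg_of_le (fun _ => norm_nonneg _) (fun n => ?_) h1
    rw [norm_neg, norm_pow]
    exact pow_le_pow_of_le_one (norm_nonneg _) hy.le (by omega))
  simpa [sub_eq_add_neg] using h

lemma norm_sq_lt {y : ℂ} (hy : ‖y‖ < 1) : ‖y ^ 2‖ < 1 := by
  rw [norm_pow]
  exact pow_lt_one₀ (norm_nonneg _) hy two_ne_zero

lemma Φ_split {y : ℂ} (hy : ‖y‖ < 1) : Φ y = O y * Φ (y ^ 2) := by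
  have h := tprod_even_mul_odd (f := fun n : ℕ => 1 - y ^ (n + 1)) (mul_odd hy) (by
    have := multipliable_one_sub_pow (norm_sq_lt hy)
    refine this.congr fun n => ?_
    rw [← pow_mul]
    congr 2)
  rw [Φ, ← h, O, Φ]
  congr 1
  refine tprod_congr fun n => ?_
  rw [← pow_mul]
  congr 2

lemma O_mul {y : ℂ} (hy : ‖y‖ < 1) : O y * O (-y) = O (y ^ 2) := by
  have h1 := (mul_odd hy).hasProd
  have h2 := (mul_odd (y := -y) (by rwa [norm_neg])).hasProd
  have h3 := h1.mul h2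
  have h4 : ∀ n : ℕ, (1 - y ^ (2 * n + 1)) * (1 - (-y) ^ (2 * n + 1)) =
      1 - (y ^ 2) ^ (2 * n + 1) := by
    intro n
    rw [Odd.neg_pow ⟨n, rfl⟩, ← pow_mul, mul_comm 2 (2 * n + 1), pow_mul]
    ring
  simp only [h4] at h3
  exact h3.tprod_eq.symm

lemma Φ_id {y : ℂ} (hy : ‖y‖ < 1) : Φ y * Φ (-y) * Φ (y ^ 4) = Φ (y ^ 2) ^ 3 := by
  have h1 := Φ_split hy
  have h2 := Φ_split (y := -y) (by rwa [norm_neg])
  have h3 := Φ_split (norm_sq_lt hy)
  rw [neg_sq] at h2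
  have h4 : (y ^ 2) ^ 2 = y ^ 4 := by ring
  rw [h4] at h3
  have h5 := O_mul hy
  calc Φ y * Φ (-y) * Φ (y ^ 4) = (O y * O (-y)) * Φ (y ^ 4) * Φ (y ^ 2) ^ 2 := by
        rw [h1, h2]; ring
    _ = Φ (y ^ 2) * Φ (y ^ 2) ^ 2 := by rw [h5, ← h3]
    _ = _ := by ring

lemma disc_eq (τ : ℍ) (q : ℂ) (hq : Function.Periodic.qParam 1 τ = q) :
    discriminant τ = q * Φ q ^ 24 := by
  have hn : ‖q‖ < 1 := by
    rw [← hq]
    exact mod_cast norm_qParam_lt_one 1 τ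
  have h1 := discriminant_eq_q_prod τ
  have h2 : ∀ n : ℕ, (1 - eta_q n (τ : ℂ)) = 1 - q ^ (n + 1) := by
    intro n
    rw [eta_q, hq]
  have h3 : (fun n : ℕ => (1 - eta_q n (τ : ℂ)) ^ 24) = fun n : ℕ => (1 - q ^ (n + 1)) ^ 24 := by
    funext n
    rw [h2]
  have h4 := (multipliable_one_sub_pow hn).tprod_pow 24
  rw [h1, h3, hq, h4]
  rfl

/-- `exp (π i τ)` -/
noncomputable def xx (τ : ℍ) : ℂ := Function.Periodic.qParam 2 τ

lemma xx_norm (τ : ℍ) : ‖xx τ‖ < 1 := by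
  have := norm_qParam_lt_one 2 τ
  exact mod_cast this

lemma xx_ne (τ : ℍ) : xx τ ≠ 0 := Function.Periodic.qParam_ne_zero _

lemma xx_tendsto : Tendsto xx atImInfty (𝓝 0) := qParam_tendsto_atImInfty two_pos

lemma xx_tendsto' : Tendsto xx atImInfty (𝓝[≠] 0) :=
  tendsto_nhdsWithin_iff.2 ⟨xx_tendsto, Eventually.of_forall xx_ne⟩

lemma q1 (τ : ℍ) : Function.Periodic.qParam 1 τ = xx τ ^ 2 := by
  rw [xx, Function.Periodic.qParam, Function.Periodic.qParam, ← Complex.exp_nat_mul]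
  congr 1
  push_cast
  ring

lemma q_dbl (τ : ℍ) : Function.Periodic.qParam 1 (dbl τ) = xx τ ^ 4 := by
  rw [xx, Function.Periodic.qParam, Function.Periodic.qParam, ← Complex.exp_nat_mul]
  congr 1
  simp only [dbl]
  push_cast
  ring

lemma q_hlf (τ : ℍ) : Function.Periodic.qParam 1 (hlf τ) = xx τ := by
  rw [xx, Function.Periodic.qParam, Function.Periodic.qParam]
  congr 1
  simp only [hlf]
  push_cast
  ring

lemma q_hlf1 (τ : ℍ) : Function.Periodic.qParam 1 (hlf1 τ) = -xx τ := by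
  rw [xx, Function.Periodic.qParam, Function.Periodic.qParam]
  have : -Complex.exp (2 * Real.pi * Complex.I * (τ : ℂ) / ((2 : ℝ) : ℂ)) =
      Complex.exp (2 * Real.pi * Complex.I * (τ : ℂ) / ((2 : ℝ) : ℂ) + Real.pi * Complex.I) := by
    rw [Complex.exp_add, Complex.exp_pi_mul_I]
    ring
  rw [this]
  congr 1
  simp only [hlf1]
  push_cast
  ring

lemma d1 (τ : ℍ) : discriminant τ = xx τ ^ 2 * Φ (xx τ ^ 2) ^ 24 := disc_eq τ _ (q1 τ)
lemma d_dbl (τ : ℍ) : discriminant (dbl τ) = xx τ ^ 4 * Φ (xx τ ^ 4) ^ 24 := disc_eq _ _ (q_dbl τ)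
lemma d_hlf (τ : ℍ) : discriminant (hlf τ) = xx τ * Φ (xx τ) ^ 24 := disc_eq _ _ (q_hlf τ)
lemma d_hlf1 (τ : ℍ) : discriminant (hlf1 τ) = -xx τ * Φ (-xx τ) ^ 24 := disc_eq _ _ (q_hlf1 τ)

lemma Φ_ne2 (τ : ℍ) : Φ (xx τ ^ 2) ≠ 0 := by
  intro h
  have := discriminant_ne_zero τ
  rw [d1, h] at this
  simp at this

lemma Φ_ne4 (τ : ℍ) : Φ (xx τ ^ 4) ≠ 0 := by
  intro h
  have := discriminant_ne_zero (dbl τ)
  rw [d_dbl, h] at this
  simp at this

lemma Φ_ne1 (τ : ℍ) : Φ (xx τ) ≠ 0 := by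
  intro h
  have := discriminant_ne_zero (hlf τ)
  rw [d_hlf, h] at this
  simp at this

lemma Φ_nen (τ : ℍ) : Φ (-xx τ) ≠ 0 := by
  intro h
  have := discriminant_ne_zero (hlf1 τ)
  rw [d_hlf1, h] at this
  simp at this

end Pool.Agent.K3h77.GD
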