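import Pool.Agent.K3h77.GD.Base

/-!
# Holomorphy and the product of the three functions
-/

set_option autoImplicit false

namespace Pool.Agent.K3h77.GD.HolProd

open UpperHalfPlane ModularForm Filter Topology
open Pool.Agent.K3h84.GD Pool.Agent.K3h77.GD
open scoped Manifold

theorem prod : S_PROD := by
  intro τ
  have h1 := Φ_id (xx_norm τ)
  have h2 := xx_ne τ
  have h3 := Φ_ne2 τ
  rw [fa, fb, fc, d_dbl, d_hlf, d_hlf1, d1 τ]
  have h5 : xx τ ^ 2 * Φ (xx τ ^ 2) ^ 24 * (xx τ ^ 2 * Φ (xx τ ^ 2) ^ 24) *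
      (xx τ ^ 2 * Φ (xx τ ^ 2) ^ 24) ≠ 0 := by
    have := mul_ne_zero (pow_ne_zero 2 h2) (pow_ne_zero 24 h3)
    exact mul_ne_zero (mul_ne_zero this this) this
  rw [div_mul_div_comm, div_mul_div_comm, div_eq_iff h5]
  have h4 : (Φ (xx τ) * Φ (-xx τ) * Φ (xx τ ^ 4)) ^ 24 = (Φ (xx τ ^ 2) ^ 3) ^ 24 := by rw [h1]
  linear_combination (-4096 * xx τ ^ 6) * h4

/-- the discriminant as a function on the open half plane -/
lemma disc_diff {z : ℂ} (hz : 0 < z.im) :
    DifferentiableAt ℂ (fun z => eta z ^ 24) z :=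
  (differentiableAt_eta_of_mem_upperHalfPlaneSet hz).pow 24

lemma mdiff_of (f : ℍ → ℂ) (g : ℂ → ℂ) (hfg : ∀ τ : ℍ, f τ = g τ)
    (hg : ∀ z : ℂ, 0 < z.im → DifferentiableAt ℂ g z) : MDifferentiable 𝓘(ℂ) 𝓘(ℂ) f := by
  rw [UpperHalfPlane.mdifferentiable_iff]
  refine .congr (fun z hz ↦ (hg z hz).differentiableWithinAt) fun z hz ↦ ?_
  simp [ofComplex_apply_of_im_pos hz, hfg]

theorem hol : S_HOL := by
  refine ⟨?_, ?_, ?_⟩
  · refine mdiff_of fa (fun z => 4096 * eta (2 * z) ^ 24 / eta z ^ 24) (fun τ => rfl) fun z hz => ?_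
    have h0 : DifferentiableAt ℂ (fun z : ℂ => 2 * z) z := by fun_prop
    have h1 : DifferentiableAt ℂ (fun z : ℂ => eta (2 * z)) z :=
      DifferentiableAt.comp z (differentiableAt_eta_of_mem_upperHalfPlaneSet (z := 2 * z) (by
        change 0 < (2 * z).im
        simp only [Complex.mul_im, Complex.re_ofNat, Complex.im_ofNat]
        linarith)) h0
    exact ((h1.pow 24).const_mul _).div (disc_diff hz) (pow_ne_zero _ (eta_ne_zero hz))
  · refine mdiff_of fb (fun z => eta (z * (1 / 2 : ℝ)) ^ 24 / eta z ^ 24) (fun τ => rfl)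
      fun z hz => ?_
    have h0 : DifferentiableAt ℂ (fun z : ℂ => z * (1 / 2 : ℝ)) z := by fun_prop
    have h1 : DifferentiableAt ℂ (fun z : ℂ => eta (z * (1 / 2 : ℝ))) z :=
      DifferentiableAt.comp (g := eta) (f := fun z : ℂ => z * (1 / 2 : ℝ)) z
        (differentiableAt_eta_of_mem_upperHalfPlaneSet (z := z * (1 / 2 : ℝ)) (by
        change 0 < (z * (1 / 2 : ℝ)).im
        simp only [Complex.mul_im, Complex.ofReal_re, Complex.ofReal_im]
        linarith)) h0
    exact (h1.pow 24).div (disc_diff hz) (pow_ne_zero _ (eta_ne_zero hz))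
  · refine mdiff_of fc (fun z => eta ((z + 1) * (1 / 2 : ℝ)) ^ 24 / eta z ^ 24) (fun τ => rfl)
      fun z hz => ?_
    have h0 : DifferentiableAt ℂ (fun z : ℂ => (z + 1) * (1 / 2 : ℝ)) z := by fun_prop
    have h1 : DifferentiableAt ℂ (fun z : ℂ => eta ((z + 1) * (1 / 2 : ℝ))) z :=
      DifferentiableAt.comp (g := eta) (f := fun z : ℂ => (z + 1) * (1 / 2 : ℝ)) z
        (differentiableAt_eta_of_mem_upperHalfPlaneSet (z := (z + 1) * (1 / 2 : ℝ)) (by
        change 0 < ((z + 1) * (1 / 2 : ℝ)).im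
        simp only [Complex.mul_im, Complex.ofReal_re, Complex.ofReal_im, Complex.add_im,
          Complex.one_im]
        linarith)) h0
    exact (h1.pow 24).div (disc_diff hz) (pow_ne_zero _ (eta_ne_zero hz))

end Pool.Agent.K3h77.GD.HolProd
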