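import Pool.Agent.K3h77.GD.Base

/-!
# The first limit
-/

set_option autoImplicit false

namespace Pool.Agent.K3h77.GD.Lim1

open UpperHalfPlane ModularForm Filter Topology
open Pool.Agent.K3h84.GD Pool.Agent.K3h77.GD

/-- `P = Φ ^ 24` has the derivative `-24` at `0` -/
lemma P_deriv : HasDerivAt (fun y => Φ y ^ 24) (-24) 0 := by
  have h := Φ_deriv.pow 24
  rw [Φ_zero] at h
  have h4 : ((24 : ℕ) : ℂ) * 1 ^ (24 - 1) * -1 = -24 := by norm_num
  rw [h4] at h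
  exact h

lemma Φ_tendsto : Tendsto Φ (𝓝 0) (𝓝 1) := by
  have h := (Φ_diff (y := 0) (by simp)).continuousAt
  rw [ContinuousAt, Φ_zero] at h
  exact h

lemma pow_tendsto (k : ℕ) (hk : k ≠ 0) : Tendsto (fun τ : ℍ => Φ (xx τ ^ k) ^ 24) atImInfty (𝓝 1) := by
  have h1 : Tendsto (fun τ : ℍ => xx τ ^ k) atImInfty (𝓝 0) := by
    have := xx_tendsto.pow k
    rwa [zero_pow hk] at this
  have := (Φ_tendsto.comp h1).pow 24
  rwa [one_pow] at this

lemma neg_tendsto : Tendsto (fun τ : ℍ => Φ (-xx τ) ^ 24) atImInfty (𝓝 1) := by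
  have h1 : Tendsto (fun τ : ℍ => -xx τ) atImInfty (𝓝 0) := by
    have := xx_tendsto.neg
    rwa [neg_zero] at this
  have := (Φ_tendsto.comp h1).pow 24
  rwa [one_pow] at this

lemma diff_tendsto : Tendsto (fun τ : ℍ => (Φ (xx τ) ^ 24 - Φ (-xx τ) ^ 24) / xx τ) atImInfty
    (𝓝 (-48)) := by
  have h1 : HasDerivAt (fun y : ℂ => Φ (-y) ^ 24) 24 0 := by
    have h2 : HasDerivAt (fun y => Φ y ^ 24) (-24) (-(0 : ℂ)) := by
      rw [neg_zero]
      exact P_deriv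
    have h3 := h2.comp (0 : ℂ) (hasDerivAt_neg (0 : ℂ))
    have h4 : (-24 : ℂ) * -1 = 24 := by norm_num
    rw [h4] at h3
    exact h3
  have h2 := (P_deriv.sub h1).tendsto_slope_zero
  have h3 := h2.comp xx_tendsto'
  have h4 : (-24 : ℂ) - 24 = -48 := by norm_num
  rw [h4] at h3
  refine h3.congr fun τ => ?_
  simp only [Function.comp, Pi.sub_apply, zero_add, neg_zero, sub_self, sub_zero, smul_eq_mul]
  rw [div_eq_inv_mul]

theorem main : S_LIM1 := by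
  have h1 : Tendsto (fun τ : ℍ => 4096 * (xx τ ^ 2 * (Φ (xx τ ^ 4) ^ 24 / Φ (xx τ ^ 2) ^ 24)) +
      (Φ (xx τ) ^ 24 - Φ (-xx τ) ^ 24) / xx τ / Φ (xx τ ^ 2) ^ 24) atImInfty
      (𝓝 (4096 * (0 ^ 2 * (1 / 1)) + (-48) / 1)) :=
    (((xx_tendsto.pow 2).mul ((pow_tendsto 4 (by norm_num)).div (pow_tendsto 2 (by norm_num))
      one_ne_zero)).const_mul 4096).add (diff_tendsto.div (pow_tendsto 2 (by norm_num)) one_ne_zero)
  have h2 : (4096 * (0 ^ 2 * (1 / 1)) + (-48) / 1 : ℂ) = -48 := by norm_num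
  rw [h2] at h1
  refine h1.congr fun τ => ?_
  have hx := xx_ne τ
  have h3 := Φ_ne2 τ
  rw [fa, fb, fc, d_dbl, d_hlf, d_hlf1, d1 τ]
  field_simp
  ring

end Pool.Agent.K3h77.GD.Lim1
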