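import Pool.Agent.K3h77.GD.Lim1

/-!
# The second limit
-/

set_option autoImplicit false

namespace Pool.Agent.K3h77.GD.Lim2

open UpperHalfPlane ModularForm Filter Topology
open Pool.Agent.K3h84.GD Pool.Agent.K3h77.GD
open Pool.Agent.TH876.FH (jInv arch)
open scoped MatrixGroups

/-- the cusp function of `E₄` -/
noncomputable def e (q : ℂ) : ℂ := cuspFunction 1 E₄ q

lemma e_eq (τ : ℍ) : E₄ τ = e (xx τ ^ 2) := by
  rw [← q1, e]
  exact (SlashInvariantFormClass.eq_cuspFunction E₄ τ one_mem_strictPeriods_SL one_ne_zero).symm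

lemma e_diff : DifferentiableAt ℂ e 0 :=
  (ModularFormClass.analyticAt_cuspFunction_zero E₄ one_pos
    one_mem_strictPeriods_SL).differentiableAt

lemma e_zero : e 0 = 1 := by
  have h1 := EisensteinSeries.E_qExpansion_coeff_zero (k := 4) (by norm_num) ⟨2, rfl⟩
  rw [qExpansion_coeff] at h1
  have h2 : cuspFunction 1 E₄ 0 = 1 := by simpa using h1
  exact h2

lemma e_deriv : HasDerivAt e 240 0 := by
  have h1 := E₄_qExpansion_coeff_one
  rw [qExpansion_coeff] at h1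
  have h2 : deriv (cuspFunction 1 E₄) 0 = 240 := by simpa using h1
  have h3 := e_diff.hasDerivAt
  have h4 : deriv e 0 = 240 := h2
  rwa [h4] at h3

lemma e_tendsto : Tendsto e (𝓝 0) (𝓝 1) := by
  have h := e_diff.continuousAt
  rw [ContinuousAt, e_zero] at h
  exact h

/-- the numerator -/
noncomputable def G (q : ℂ) : ℂ := (Φ q ^ 24) ^ 2 - e q ^ 3 * Φ (q ^ 2) ^ 24

lemma G_zero : G 0 = 0 := by
  simp [G, Φ_zero, e_zero]

lemma G_deriv : HasDerivAt G (-768) 0 := by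
  have h1 := Lim1.P_deriv.pow 2
  have h2 := e_deriv.pow 3
  have h3 : HasDerivAt (fun q : ℂ => Φ (q ^ 2) ^ 24) 0 0 := by
    have h4 : HasDerivAt (fun y => Φ y ^ 24) (-24) ((0 : ℂ) ^ 2) := by
      rw [zero_pow two_ne_zero]
      exact Lim1.P_deriv
    have h5 := h4.comp (0 : ℂ) (hasDerivAt_pow 2 (0 : ℂ))
    have h6 : (-24 : ℂ) * (((2 : ℕ) : ℂ) * 0 ^ (2 - 1)) = 0 := by norm_num
    rw [h6] at h5
    exact h5
  have h4 := h1.sub (h2.mul h3)
  have h5 : (((2 : ℕ) : ℂ) * (Φ 0 ^ 24) ^ (2 - 1) * -24 -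
      (((3 : ℕ) : ℂ) * e 0 ^ (3 - 1) * 240 * Φ (0 ^ 2) ^ 24 + (e ^ 3) 0 * 0)) = -768 := by
    rw [zero_pow two_ne_zero, Φ_zero, e_zero]
    norm_num
  rw [h5] at h4
  exact h4

lemma G_tendsto : Tendsto (fun τ : ℍ => G (xx τ ^ 2) / xx τ ^ 2) atImInfty (𝓝 (-768)) := by
  have h2 := G_deriv.tendsto_slope_zero
  have h1 : Tendsto (fun τ : ℍ => xx τ ^ 2) atImInfty (𝓝[≠] 0) := by
    refine tendsto_nhdsWithin_iff.2 ⟨?_, Eventually.of_forall fun τ => pow_ne_zero 2 (xx_ne τ)⟩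
    have := xx_tendsto.pow 2
    rwa [zero_pow two_ne_zero] at this
  refine (h2.comp h1).congr fun τ => ?_
  simp only [Function.comp, zero_add, G_zero, sub_zero, smul_eq_mul]
  rw [div_eq_inv_mul]

theorem main : S_LIM2 := by
  have t1 := Lim1.pow_tendsto 1 one_ne_zero
  have t2 := Lim1.pow_tendsto 2 two_ne_zero
  have t4 := Lim1.pow_tendsto 4 (by norm_num)
  simp only [pow_one] at t1
  have h1 : Tendsto (fun τ : ℍ => G (xx τ ^ 2) / xx τ ^ 2 /
        (Φ (xx τ ^ 2) ^ 24 * Φ (xx τ ^ 4) ^ 24) +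
      4096 * (xx τ * (Φ (xx τ ^ 2) ^ 24 / Φ (xx τ) ^ 24)) -
      4096 * (xx τ * (Φ (xx τ ^ 2) ^ 24 / Φ (-xx τ) ^ 24))) atImInfty
      (𝓝 ((-768) / (1 * 1) + 4096 * (0 * (1 / 1)) - 4096 * (0 * (1 / 1)))) :=
    ((G_tendsto.div (t2.mul t4) (by norm_num)).add
      ((xx_tendsto.mul (t2.div t1 one_ne_zero)).const_mul 4096)).sub
      ((xx_tendsto.mul (t2.div Lim1.neg_tendsto one_ne_zero)).const_mul 4096)
  have h2 : ((-768) / (1 * 1) + 4096 * (0 * (1 / 1)) - 4096 * (0 * (1 / 1)) : ℂ) = -768 := by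
    norm_num
  rw [h2] at h1
  refine h1.congr fun τ => ?_
  have hx := xx_ne τ
  have n1 := Φ_ne1 τ
  have nn := Φ_nen τ
  have n2 := Φ_ne2 τ
  have n4 := Φ_ne4 τ
  rw [fa, fb, fc, jInv, e_eq, d_dbl, d_hlf, d_hlf1, d1 τ, G]
  have h3 : (xx τ ^ 2) ^ 2 = xx τ ^ 4 := by ring
  rw [h3]
  generalize Φ (xx τ ^ 2) = a2 at *
  generalize Φ (xx τ ^ 4) = a4 at *
  generalize Φ (-xx τ) = an at *
  generalize Φ (xx τ) = a1 at *
  generalize e (xx τ ^ 2) = b at *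
  generalize xx τ = x at *
  clear h1 h2 t1 t2 t4 h3
  field_simp
  ring

end Pool.Agent.K3h77.GD.Lim2
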